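import Pool.Agent.helper85.T7.SpecS

/-!
# T7 (MP_16912e_nt), row LA7: the weighted number of `α`
(compare Pool/Agent/helper19/T5/LF1.lean)
-/

set_option autoImplicit false

namespace Pool.Agent.T7

open Finset NumberField Pool.Agent.helper3.FT Pool.Agent.helper47.RA Pool.Agent.T5 Pool.Agent.T6

private theorem LA7_rho (N s W A l T ε ρ : ℝ) (hN : 0 < N) (hs : 0 < s) (hsN : s ≤ √N) (hW : 1 ≤ W) (hε : 0 < ε)
    (hA : A = (36 * W / ε) ^ 2 + 4 * W ^ 2 + 1) (hlT : A * N * s / √N ≤ l * T)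
    (hρ : ρ = 2 * W * s / √(l * T)) : 18 * ρ ≤ ε ∧ ρ ≤ 1 := by
  have hA0 : 0 < A := by rw [hA]; positivity
  have hsN0 : 0 < √N := Real.sqrt_pos.2 hN
  have h1 : A * s ^ 2 ≤ l * T := by
    refine le_trans ?_ hlT
    have h2 : A * N * s / √N = A * s * √N := by
      rw [div_eq_iff hsN0.ne']
      have h3 : √N * √N = N := Real.mul_self_sqrt hN.le
      calc A * N * s = A * s * N := by ring
        _ = A * s * (√N * √N) := by rw [h3]
        _ = A * s * √N * √N := by ring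
    rw [h2]
    calc A * s ^ 2 = A * s * s := by ring
      _ ≤ A * s * √N := mul_le_mul_of_nonneg_left hsN (by positivity)
  have h2 : √A * s ≤ √(l * T) := by
    calc √A * s = √(A * s ^ 2) := by
          rw [Real.sqrt_mul hA0.le, Real.sqrt_sq hs.le]
      _ ≤ √(l * T) := Real.sqrt_le_sqrt h1
  have hsA : 0 < √A := Real.sqrt_pos.2 hA0
  have h3 : ρ ≤ 2 * W / √A := by
    rw [hρ]
    calc 2 * W * s / √(l * T) ≤ 2 * W * s / (√A * s) :=
          div_le_div_of_nonneg_left (by positivity) (by positivity) h2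
      _ = 2 * W / √A := by
          rw [mul_div_mul_right _ _ hs.ne']
  have h4 : 36 * W / ε ≤ √A := by
    apply Real.le_sqrt_of_sq_le
    rw [hA]
    nlinarith [sq_nonneg W]
  have h5 : 2 * W ≤ √A := by
    apply Real.le_sqrt_of_sq_le
    rw [hA]
    nlinarith [sq_nonneg (36 * W / ε)]
  constructor
  · rw [div_le_iff₀ hε] at h4
    have h6 : 18 * (2 * W / √A) ≤ ε := by
      rw [← mul_div_assoc, div_le_iff₀ hsA]
      linarith
    linarith
  · refine h3.trans ?_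
    rw [div_le_one hsA]
    exact h5

theorem LA7 : LA7_stmt := by
  intro w ε hε
  have hWn : 1 ≤ Pool.Agent.helper26.T5.WW w := by
    unfold Pool.Agent.helper26.T5.WW
    have h : 0 < ∏ p ∈ pr w, p := by
      refine Finset.prod_pos fun p hp => ?_
      unfold pr at hp
      rw [Finset.mem_filter] at hp
      exact hp.2.pos
    exact h
  obtain ⟨W, hWd⟩ : ∃ W : ℝ, W = ((Pool.Agent.helper26.T5.WW w : ℕ) : ℝ) := ⟨_, rfl⟩
  have hW : 1 ≤ W := by rw [hWd]; exact_mod_cast hWn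
  refine ⟨(36 * W / ε) ^ 2 + 4 * W ^ 2 + 1, ?_, ?_⟩
  · have h1 := sq_nonneg (36 * W / ε)
    have h2 := sq_nonneg W
    linarith
  intro K _ _ Q N Y Y₂ l a hN hD1 hD2 hY₂ hl hAl haI haE F hF
  have hDr : 0 < -(Q.D : ℝ) := by linarith
  have hD0 : Q.D < 0 := by
    have : (Q.D : ℝ) < 0 := by linarith
    exact_mod_cast this
  have habs : |(Q.D : ℝ)| = -(Q.D : ℝ) := abs_of_neg (by linarith)
  obtain ⟨s, hs⟩ : ∃ s, s = √(-(Q.D : ℝ)) := ⟨_, rfl⟩
  have hs0 : 0 < s := by rw [hs]; exact Real.sqrt_pos.2 hDr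
  have hsN : s ≤ √N := by rw [hs]; exact Real.sqrt_le_sqrt hD2
  have hsN0 : 0 < √N := Real.sqrt_pos.2 hN
  obtain ⟨T, hT⟩ : ∃ T, T = Y₂ * s / √N := ⟨_, rfl⟩
  have hT0 : 0 < T := by rw [hT]; positivity
  have hNE : Pool.Agent.helper26.T5.NE Q a l := by
    intro α hα hα0
    by_contra hc
    push Not at hc
    exact haE ⟨haI, α, hα, hα0, hc⟩
  obtain ⟨ρ, hρ⟩ : ∃ ρ, ρ = 2 * ((Pool.Agent.helper26.T5.WW w : ℕ) : ℝ) * √|(Q.D : ℝ)| / √(l * T) := ⟨_, rfl⟩
  have hlT : ((36 * W / ε) ^ 2 + 4 * W ^ 2 + 1) * N * s / √N ≤ l * T := by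
    have h1 : l * T = l * Y₂ * s / √N := by
      rw [hT]
      ring
    rw [h1]
    apply div_le_div_of_nonneg_right _ hsN0.le
    exact mul_le_mul_of_nonneg_right hAl hs0.le
  obtain ⟨hρ2, hρ3⟩ := LA7_rho N s W _ l T ε ρ hN hs0 hsN hW hε rfl hlT (by rw [hρ, habs, ← hs, hWd])
  obtain ⟨P, hP, hb⟩ := Pool.Agent.helper26.T5.AllL.aL1 K Q a w l T ρ hD0 haI.2.1 haI.1 hl hT0 hNE hρ hρ3
  have hPF : P = F := by
    ext α
    rw [hP α, hF α, hT, hs]
  rw [← hPF]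
  have hTs : T / √|(Q.D : ℝ)| = Y₂ / √N := by
    rw [habs, ← hs, hT]
    field_simp
  rw [hTs] at hb
  refine hb.trans ?_
  exact mul_le_mul_of_nonneg_right hρ2 (by positivity)

end Pool.Agent.T7
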