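import Pool.Agent.helper8.T7.SpecSM

/-!
# T7 (MP_16912e_nt), row SMB: the number of labels
-/

set_option autoImplicit false

namespace Pool.Agent.T7

open Finset NumberField Pool.Agent.helper3.FT Pool.Agent.helper47.RA Pool.Agent.T5 Pool.Agent.T6 Pool.Agent.T6L
open Pool.Agent.helper26.T5 (nn LEMB LPR LAW LP LPA HLN HPR HSQ HID HCL HGA)

theorem SMB (hSML : SML_stmt) (hSXU : SXU_stmt) (hSTO : STO_stmt) : SMB_stmt := by
  obtain ⟨C₁, N₁, hC₁, h1⟩ := hSTO
  obtain ⟨C₂, hC₂, h2⟩ := hSXU
  refine ⟨3 * (C₁ + 9 * C₂), (65 + |N₁|) ^ 4, by linarith, ?_⟩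
  intro N Y X P hN hY1 hY2 hP1 hP2 L hL
  have hN₁ : 0 ≤ |N₁| := abs_nonneg N₁
  have hN1 : 1 ≤ N := le_trans (one_le_pow₀ (by linarith)) hN
  have hN0 : 0 < N := by linarith
  set u : ℝ := N ^ (1 / 4 : ℝ) with hudef
  have hu0 : 0 < u := Real.rpow_pos_of_pos hN0 _
  have hu4 : u ^ 4 = N := by
    rw [hudef, ← Real.rpow_natCast, ← Real.rpow_mul hN0.le]
    norm_num
  have hu : 65 + |N₁| ≤ u := by
    by_contra h
    push Not at h
    have h3 : u ^ 4 < (65 + |N₁|) ^ 4 := pow_lt_pow_left₀ h hu0.le (by norm_num)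
    linarith
  have hu65 : 65 ≤ u := by linarith
  have hsq : √N = u ^ 2 := by
    rw [← hu4, show u ^ 4 = (u ^ 2) ^ 2 by ring]
    exact Real.sqrt_sq (by positivity)
  have hP0 : 0 < P := by linarith
  have hPu : P ^ 2 ≤ u := by
    calc P ^ 2 ≤ (N ^ (1 / 50 : ℝ)) ^ 2 := pow_le_pow_left₀ hP0.le hP2 2
      _ = N ^ (1 / 25 : ℝ) := by
          rw [← Real.rpow_natCast, ← Real.rpow_mul hN0.le]
          norm_num
      _ ≤ u := Real.rpow_le_rpow_of_exponent_le hN1 (by norm_num)
  have huY : u ≤ Y := le_trans (Real.rpow_le_rpow_of_exponent_le hN1 (by norm_num)) hY1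
  have hY0 : 0 < Y := by linarith
  have hbig : 32 * (Y + 1) * P ^ 2 < N := by
    rw [hsq] at hY2
    calc 32 * (Y + 1) * P ^ 2 ≤ 32 * (u ^ 2 + 1) * u := by
          apply mul_le_mul _ hPu (by positivity) (by positivity)
          linarith
      _ ≤ 64 * u ^ 3 := by nlinarith [sq_nonneg u]
      _ < u * u ^ 3 := by
          apply mul_lt_mul_of_pos_right _ (by positivity)
          linarith
      _ = N := by rw [← hu4]; ring
  refine (hSML N Y X P hP1 (by linarith) hbig L hL).trans ?_
  have hT0 : 0 ≤ Y * √N / P := by positivity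
  -- one value of `i`
  have key : ∀ i ∈ range 3, ∑ D ∈ DN (N / P ^ 2 / 2 ^ i), (cA D Y : ℝ) ≤ (C₁ + 9 * C₂) * (Y * √N / P) := by
    intro i hi
    rw [mem_range] at hi
    have h2i : (1 : ℝ) ≤ 2 ^ i := one_le_pow₀ (by norm_num)
    have h2i4 : (2 : ℝ) ^ i ≤ 4 := by
      calc (2 : ℝ) ^ i ≤ 2 ^ 2 := pow_le_pow_right₀ (by norm_num) (by omega)
        _ = 4 := by norm_num
    set M : ℝ := N / P ^ 2 / 2 ^ i with hM
    have hM0 : 0 < M := by positivity
    have hMN : M ≤ N := by
      rw [hM, div_div]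
      apply div_le_self hN0.le
      have : 1 ≤ P ^ 2 := one_le_pow₀ hP1
      nlinarith
    have hMP : M ≤ N / P ^ 2 := div_le_self (by positivity) h2i
    have hMP4 : N / P ^ 2 / 4 ≤ M := by
      rw [hM]
      exact div_le_div_of_nonneg_left (by positivity) (by positivity) h2i4
    have huM : u ≤ M := by
      have h3 : u ^ 3 ≤ N / P ^ 2 := by
        rw [le_div_iff₀ (by positivity), ← hu4]
        calc u ^ 3 * P ^ 2 ≤ u ^ 3 * u := mul_le_mul_of_nonneg_left hPu (by positivity)
          _ = u ^ 4 := by ring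
      have h4 : 4 * u ≤ u ^ 3 := by nlinarith [mul_pos hu0 hu0]
      linarith
    have hsM : √M ≤ √N / P := by
      calc √M ≤ √(N / P ^ 2) := Real.sqrt_le_sqrt hMP
        _ = √N / P := by rw [Real.sqrt_div hN0.le, Real.sqrt_sq hP0.le]
    have hsM2 : √N / (2 * P) ≤ √M := by
      calc √N / (2 * P) = √(N / P ^ 2 / 4) := by
            rw [Real.sqrt_div (by positivity), Real.sqrt_div hN0.le, Real.sqrt_sq hP0.le,
              show (4 : ℝ) = 2 ^ 2 by norm_num, Real.sqrt_sq (by norm_num)]
            field_simp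
        _ ≤ √M := Real.sqrt_le_sqrt hMP4
    by_cases h8 : 8 * P * Y ≤ √N
    · have ha : M ^ (0.395 : ℝ) ≤ Y := by
        calc M ^ (0.395 : ℝ) ≤ N ^ (0.395 : ℝ) := Real.rpow_le_rpow hM0.le hMN (by norm_num)
          _ ≤ N ^ (0.4 : ℝ) := Real.rpow_le_rpow_of_exponent_le hN1 (by norm_num)
          _ ≤ Y := hY1
      have hb : Y ≤ √M / 4 := by
        have h3 : Y ≤ √N / (8 * P) := by
          rw [le_div_iff₀ (by positivity)]
          linarith
        have h4 : √N / (8 * P) = √N / (2 * P) / 4 := by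
          field_simp
          norm_num
        linarith
      have h5 := h1 M Y (by linarith [le_abs_self N₁]) ha hb
      calc _ ≤ C₁ * (Y * √M) := h5
        _ ≤ C₁ * (Y * (√N / P)) := by
            apply mul_le_mul_of_nonneg_left _ (by linarith)
            exact mul_le_mul_of_nonneg_left hsM hY0.le
        _ = C₁ * (Y * √N / P) := by ring
        _ ≤ _ := by
            apply mul_le_mul_of_nonneg_right _ hT0
            linarith
    · push Not at h8
      have h5 := h2 M Y (by linarith) hY0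
      have h6 : √M * √M = M := Real.mul_self_sqrt hM0.le
      have h7 : (1 + Y / √M) * M = M + Y * √M := by
        have h9 : 0 < √M := Real.sqrt_pos.mpr hM0
        have h10 : Y / √M * M = Y * √M := by
          rw [div_mul_eq_mul_div, div_eq_iff h9.ne']
          rw [mul_assoc, h6]
        rw [add_mul, one_mul, h10]
      have h11 : √N / P ≤ 8 * Y := by
        rw [div_le_iff₀ hP0]
        linarith
      have h12 : M ≤ 8 * (Y * √N / P) := by
        calc M = √M * √M := h6.symm
          _ ≤ (√N / P) * (√N / P) := mul_le_mul hsM hsM (Real.sqrt_nonneg _) (by positivity)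
          _ ≤ (8 * Y) * (√N / P) := mul_le_mul_of_nonneg_right h11 (by positivity)
          _ = _ := by ring
      have h13 : Y * √M ≤ Y * √N / P := by
        calc Y * √M ≤ Y * (√N / P) := mul_le_mul_of_nonneg_left hsM hY0.le
          _ = _ := by ring
      calc _ ≤ C₂ * (1 + Y / √M) * M := h5
        _ = C₂ * (M + Y * √M) := by rw [mul_assoc, h7]
        _ ≤ C₂ * (8 * (Y * √N / P) + Y * √N / P) := by
            apply mul_le_mul_of_nonneg_left _ (by linarith)
            linarith
        _ = 9 * C₂ * (Y * √N / P) := by ring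
        _ ≤ _ := by
            apply mul_le_mul_of_nonneg_right _ hT0
            linarith
  calc _ ≤ ∑ i ∈ range 3, (C₁ + 9 * C₂) * (Y * √N / P) := sum_le_sum key
    _ = 3 * (C₁ + 9 * C₂) * (Y * √N / P) := by
        rw [sum_const, card_range, nsmul_eq_mul]
        push_cast
        ring

end Pool.Agent.T7
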